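import Pool.Agent.WR3.StmtsA

/-!
WR3, row HAR: counting functions are almost harmonic.
-/

namespace Pool.Agent.WR3.H33

open Pool.Agent.WIR Pool.Agent.WR2 Pool.Agent.WR3
open scoped BigOperators
open Filter

theorem gs_diff (SMU : SmuStmt) (A0 : ℝ) (μ : ℝ → ℕ → ℝ) (t : ℕ) (x : ℝ) :
    GS A0 μ (t + 1) x - GS A0 μ t (x / 2) - GS A0 μ t (3 * x / 2) / 3
      = ∑ l ∈ Finset.range (t + 2), ∑ c ∈ Finset.Icc 1 ⌊A0 * (3 ^ l * x / 2 ^ (t + 1))⌋₊,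
          μ (3 ^ l * x / 2 ^ (t + 1)) c * dl t l c := by
  have h1 : GS A0 μ (t + 1) x = ∑ l ∈ Finset.range (t + 2),
      ∑ c ∈ Finset.Icc 1 ⌊A0 * (3 ^ l * x / 2 ^ (t + 1))⌋₊,
        μ (3 ^ l * x / 2 ^ (t + 1)) c * (uT (t + 1) l c : ℝ) := rfl
  have h2 : GS A0 μ t (x / 2) = ∑ l ∈ Finset.range (t + 2),
      ∑ c ∈ Finset.Icc 1 ⌊A0 * (3 ^ l * x / 2 ^ (t + 1))⌋₊,
        μ (3 ^ l * x / 2 ^ (t + 1)) c * (uT t l c : ℝ) := by
    rw [Finset.sum_range_succ _ (t + 1)]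
    have h0 : ∑ c ∈ Finset.Icc 1 ⌊A0 * (3 ^ (t + 1) * x / 2 ^ (t + 1))⌋₊,
        μ (3 ^ (t + 1) * x / 2 ^ (t + 1)) c * (uT t (t + 1) c : ℝ) = 0 := by
      refine Finset.sum_eq_zero fun c _ => ?_
      rw [SMU.2.2.2 t (t + 1) c (Nat.lt_succ_self t), Nat.cast_zero, mul_zero]
    rw [h0, add_zero]
    unfold GS
    refine Finset.sum_congr rfl fun l _ => ?_
    have e : (3 : ℝ) ^ l * (x / 2) / 2 ^ t = 3 ^ l * x / 2 ^ (t + 1) := by
      rw [pow_succ]; field_simp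
    rw [e]
  have h3 : GS A0 μ t (3 * x / 2) / 3 = ∑ l ∈ Finset.range (t + 2),
      ∑ c ∈ Finset.Icc 1 ⌊A0 * (3 ^ l * x / 2 ^ (t + 1))⌋₊,
        μ (3 ^ l * x / 2 ^ (t + 1)) c * (if l = 0 then 0 else (uT t (l - 1) c : ℝ) / 3) := by
    rw [Finset.sum_range_succ']
    have h0 : ∑ c ∈ Finset.Icc 1 ⌊A0 * (3 ^ 0 * x / 2 ^ (t + 1))⌋₊,
        μ (3 ^ 0 * x / 2 ^ (t + 1)) c * (if (0 : ℕ) = 0 then 0 else (uT t (0 - 1) c : ℝ) / 3) = 0 := by
      refine Finset.sum_eq_zero fun c _ => ?_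
      simp
    rw [h0, add_zero]
    unfold GS
    rw [Finset.sum_div]
    refine Finset.sum_congr rfl fun l _ => ?_
    have e : (3 : ℝ) ^ l * (3 * x / 2) / 2 ^ t = 3 ^ (l + 1) * x / 2 ^ (t + 1) := by
      rw [pow_succ, pow_succ]; field_simp
    rw [e, Finset.sum_div]
    refine Finset.sum_congr rfl fun c _ => ?_
    rw [if_neg (Nat.succ_ne_zero l), Nat.add_sub_cancel]
    ring
  rw [h1, h2, h3, ← Finset.sum_sub_distrib, ← Finset.sum_sub_distrib]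
  refine Finset.sum_congr rfl fun l _ => ?_
  rw [← Finset.sum_sub_distrib, ← Finset.sum_sub_distrib]
  refine Finset.sum_congr rfl fun c _ => ?_
  unfold dl
  ring

theorem dl_per (SMU : SmuStmt) (t l a : ℕ) (ha : 0 < a) : dl t l (a + 3 ^ l) = dl t l a := by
  unfold dl
  have h1 : ∀ s, uT s l (a + 3 ^ l) = uT s l a := by
    intro s
    have := SMU.2.1 s l a 1 ha
    rwa [one_mul] at this
  rw [h1, h1]
  rcases Nat.eq_zero_or_pos l with h0 | h0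
  · rw [if_pos h0, if_pos h0]
  · rw [if_neg (by omega), if_neg (by omega)]
    obtain ⟨k, rfl⟩ : ∃ k, l = k + 1 := ⟨l - 1, by omega⟩
    have := SMU.2.1 t k a 3 ha
    rw [Nat.add_sub_cancel, pow_succ, mul_comm (3 ^ k) 3, this]

theorem main_bd (SMU : SmuStmt) (PRD : PrdStmt) (A0 : ℝ) (hA0 : 1 ≤ A0) (μ : ℝ → ℕ → ℝ) (t : ℕ)
    (x M : ℝ) (hx : 2 ^ (t + 1) ≤ x) (hM : 0 ≤ M) (hμ0 : ∀ y c, 0 ≤ μ y c)
    (hμ : ∀ (l c : ℕ), l ≤ t + 1 → μ (3 ^ l * x / 2 ^ (t + 1)) c ≤ M) :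
    |∑ l ∈ Finset.range (t + 2), ∑ c ∈ Finset.Icc 1 ⌊A0 * (3 ^ l * x / 2 ^ (t + 1))⌋₊,
          μ (3 ^ l * x / 2 ^ (t + 1)) c * dl t l c|
      ≤ M * (A0 * x / 2 ^ t) * ∑ l ∈ Finset.range (t + 2), ∑ a ∈ Finset.Icc 1 (3 ^ l), |dl t l a| := by
  have h2t : (0 : ℝ) < 2 ^ t := by positivity
  have hx0 : 0 < x := lt_of_lt_of_le (by positivity) hx
  rw [Finset.mul_sum]
  refine (Finset.abs_sum_le_sum_abs _ _).trans (Finset.sum_le_sum fun l hl => ?_)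
  have hl' : l ≤ t + 1 := by
    have := Finset.mem_range.1 hl
    omega
  have h1 : |∑ c ∈ Finset.Icc 1 ⌊A0 * (3 ^ l * x / 2 ^ (t + 1))⌋₊,
      μ (3 ^ l * x / 2 ^ (t + 1)) c * dl t l c|
      ≤ M * ∑ c ∈ Finset.Icc 1 ⌊A0 * (3 ^ l * x / 2 ^ (t + 1))⌋₊, |dl t l c| := by
    rw [Finset.mul_sum]
    refine (Finset.abs_sum_le_sum_abs _ _).trans (Finset.sum_le_sum fun c _ => ?_)
    rw [abs_mul, abs_of_nonneg (hμ0 _ _)]
    exact mul_le_mul_of_nonneg_right (hμ l c hl') (abs_nonneg _)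
  have h2 := (PRD l (fun a => |dl t l a|) (fun a => abs_nonneg _)
    (fun a ha => by rw [dl_per SMU t l a ha])).1 (A0 * (3 ^ l * x / 2 ^ (t + 1))) (by positivity)
  have h3 : A0 * (3 ^ l * x / 2 ^ (t + 1)) / 3 ^ l + 1 ≤ A0 * x / 2 ^ t := by
    have e1 : A0 * (3 ^ l * x / 2 ^ (t + 1)) / 3 ^ l = A0 * x / 2 ^ t / 2 := by
      rw [pow_succ]; field_simp
    have e2 : (1 : ℝ) ≤ A0 * x / 2 ^ t / 2 := by
      rw [le_div_iff₀ (by norm_num), le_div_iff₀ h2t]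
      rw [pow_succ] at hx
      nlinarith
    rw [e1]
    linarith
  have hP : 0 ≤ ∑ a ∈ Finset.Icc 1 (3 ^ l), |dl t l a| := Finset.sum_nonneg fun a _ => abs_nonneg _
  calc _ ≤ M * ∑ c ∈ Finset.Icc 1 ⌊A0 * (3 ^ l * x / 2 ^ (t + 1))⌋₊, |dl t l c| := h1
    _ ≤ M * ((A0 * (3 ^ l * x / 2 ^ (t + 1)) / 3 ^ l + 1) * ∑ a ∈ Finset.Icc 1 (3 ^ l), |dl t l a|) :=
        mul_le_mul_of_nonneg_left h2 hM
    _ ≤ M * ((A0 * x / 2 ^ t) * ∑ a ∈ Finset.Icc 1 (3 ^ l), |dl t l a|) :=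
        mul_le_mul_of_nonneg_left (mul_le_mul_of_nonneg_right h3 hP) hM
    _ = _ := by ring

theorem har (SMU : SmuStmt) (DEL : DelStmt) (PRD : PrdStmt) : HarStmt := by
  intro p K A0 hK hA0
  obtain ⟨C, hC1, hC⟩ := DEL (p + 1)
  refine ⟨K * A0 * C * 24 ^ (p + 1) + 3 * (2 * 12 ^ p * (p.factorial : ℝ)), 2 ^ 12, by positivity,
    by norm_num, ?_⟩
  intro F μ E hE hμ0 hμ hF x hx hEx
  have hx0 : (0 : ℝ) < x := lt_of_lt_of_le (by norm_num) hx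
  -- the choice of t
  set N := Nat.log 2 ⌊x⌋₊ with hN
  have hfl : ⌊x⌋₊ ≠ 0 := by
    have : 2 ^ 12 ≤ ⌊x⌋₊ := Nat.le_floor (by exact_mod_cast hx)
    omega
  have hN1 : (2 : ℝ) ^ N ≤ x := by
    have h1 : 2 ^ N ≤ ⌊x⌋₊ := Nat.pow_log_le_self 2 hfl
    have h2 : ((2 ^ N : ℕ) : ℝ) ≤ ⌊x⌋₊ := by exact_mod_cast h1
    have h3 := Nat.floor_le hx0.le
    push_cast at h2
    linarith
  have hN2 : x < 2 ^ (N + 1) := by
    have h1 : ⌊x⌋₊ < 2 ^ (N + 1) := Nat.lt_pow_succ_log_self (by norm_num) _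
    have h2 : x < ((2 ^ (N + 1) : ℕ) : ℝ) := (Nat.floor_lt hx0.le).1 h1
    push_cast at h2
    exact h2
  have hN12 : 12 ≤ N := by
    apply Nat.le_log_of_pow_le (by norm_num)
    exact Nat.le_floor (by exact_mod_cast hx)
  obtain ⟨t, ht1, ht2⟩ : ∃ t : ℕ, 12 * (t + 1) ≤ N ∧ N + 1 ≤ 12 * (t + 2) :=
    ⟨N / 12 - 1, by omega, by omega⟩
  have hxt1 : ((2 : ℝ) ^ (t + 1)) ^ 12 ≤ x := by
    rw [← pow_mul]
    exact (pow_le_pow_right₀ (by norm_num) (by omega)).trans hN1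
  have hxt2 : x ≤ 2 ^ (12 * (t + 2)) := hN2.le.trans (pow_le_pow_right₀ (by norm_num) ht2)
  have h2t1 : (1 : ℝ) ≤ 2 ^ (t + 1) := one_le_pow₀ (by norm_num)
  have hxt3 : (2 : ℝ) ^ (t + 1) ≤ x := by
    refine le_trans ?_ hxt1
    exact le_self_pow₀ h2t1 (by norm_num)
  have hlog2 : 0 < Real.log 2 := Real.log_pos (by norm_num)
  have hlog2' : Real.log 2 ≤ 1 := by
    have := Real.log_two_lt_d9
    linarith
  have hlogx : Real.log x ≤ 12 * (((t : ℝ) + 2) * Real.log 2) := by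
    have := Real.log_le_log hx0 hxt2
    rw [Real.log_pow] at this
    push_cast at this
    linarith
  have hx1 : (1 : ℝ) < x := lt_of_lt_of_le (by norm_num) hx
  have hlogpos : 0 < Real.log x := Real.log_pos hx1
  have hlogx2 : Real.log x ≤ 24 * ((t : ℝ) + 1) := by
    have ht0 : (0 : ℝ) ≤ t := Nat.cast_nonneg t
    have : ((t : ℝ) + 2) * Real.log 2 ≤ ((t : ℝ) + 2) * 1 :=
      mul_le_mul_of_nonneg_left hlog2' (by linarith)
    linarith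
  have hlp : 0 < Real.log x ^ p := pow_pos hlogpos p
  -- E * 2^(t+1) is small
  have hE1 : E * 2 ^ (t + 1) * 2 ^ (t + 1) ≤ x := by
    have h6 : (E * 2 ^ (t + 1) * 2 ^ (t + 1)) ^ 6 ≤ x ^ 6 := by
      calc (E * 2 ^ (t + 1) * 2 ^ (t + 1)) ^ 6 = E ^ 6 * ((2 : ℝ) ^ (t + 1)) ^ 12 := by ring
        _ ≤ x ^ 5 * x := mul_le_mul hEx hxt1 (by positivity) (by positivity)
        _ = x ^ 6 := by ring
    exact le_of_pow_le_pow_left₀ (by norm_num) hx0.le h6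
  have hlogp : Real.log x ^ p ≤ 2 * 12 ^ p * (p.factorial : ℝ) * 2 ^ (t + 1) := by
    have h1 : Real.log x ^ p ≤ (12 * (((t : ℝ) + 2) * Real.log 2)) ^ p :=
      pow_le_pow_left₀ hlogpos.le hlogx p
    have h2 : (((t : ℝ) + 2) * Real.log 2) ^ p / (p.factorial : ℝ)
        ≤ Real.exp (((t : ℝ) + 2) * Real.log 2) :=
      Real.pow_div_factorial_le_exp _ (by positivity) p
    have h3 : Real.exp (((t : ℝ) + 2) * Real.log 2) = 2 ^ (t + 2) := by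
      rw [mul_comm, Real.exp_mul, Real.exp_log (by norm_num)]
      exact_mod_cast Real.rpow_natCast 2 (t + 2)
    rw [h3, div_le_iff₀ (by positivity)] at h2
    calc Real.log x ^ p ≤ (12 * (((t : ℝ) + 2) * Real.log 2)) ^ p := h1
      _ = 12 ^ p * (((t : ℝ) + 2) * Real.log 2) ^ p := mul_pow _ _ _
      _ ≤ 12 ^ p * (2 ^ (t + 2) * (p.factorial : ℝ)) := by gcongr
      _ = _ := by rw [pow_succ (2 : ℝ) (t + 1)]; ring
  have herr : E * 2 ^ (t + 1) ≤ 2 * 12 ^ p * (p.factorial : ℝ) * (x / Real.log x ^ p) := by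
    have h1 : E * 2 ^ (t + 1) ≤ x / 2 ^ (t + 1) := by
      rw [le_div_iff₀ (by positivity)]
      exact hE1
    refine h1.trans ?_
    rw [← mul_div_assoc, div_le_div_iff₀ (by positivity) hlp]
    calc x * Real.log x ^ p ≤ x * (2 * 12 ^ p * (p.factorial : ℝ) * 2 ^ (t + 1)) := by gcongr
      _ = _ := by ring
  -- main term
  have hμ' : ∀ (l c : ℕ), l ≤ t + 1 → μ (3 ^ l * x / 2 ^ (t + 1)) c ≤ K * Real.log x := by
    intro l c hl
    refine hμ x _ c (le_trans (by norm_num) hx) ?_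
    have h3 : (3 : ℝ) ^ l ≤ 2 ^ (t + 1) * 2 ^ (t + 1) := by
      calc (3 : ℝ) ^ l ≤ 3 ^ (t + 1) := pow_le_pow_right₀ (by norm_num) hl
        _ ≤ 4 ^ (t + 1) := pow_le_pow_left₀ (by norm_num) (by norm_num) _
        _ = 2 ^ (t + 1) * 2 ^ (t + 1) := by rw [← mul_pow]; norm_num
    rw [div_le_iff₀ (by positivity)]
    calc (3 : ℝ) ^ l * x ≤ (2 ^ (t + 1) * 2 ^ (t + 1)) * x := by gcongr
      _ ≤ (2 ^ (t + 1) * x) * x := by gcongr
      _ = x ^ 2 * 2 ^ (t + 1) := by ring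
  have hmain := main_bd SMU PRD A0 hA0 μ t x (K * Real.log x) hxt3 (by positivity) hμ0 hμ'
  rw [← gs_diff SMU A0 μ t x] at hmain
  have hmain2 : |GS A0 μ (t + 1) x - GS A0 μ t (x / 2) - GS A0 μ t (3 * x / 2) / 3|
      ≤ K * A0 * C * 24 ^ (p + 1) * (x / Real.log x ^ p) := by
    refine hmain.trans ?_
    have h1 : K * Real.log x * (A0 * x / 2 ^ t)
        * ∑ l ∈ Finset.range (t + 2), ∑ a ∈ Finset.Icc 1 (3 ^ l), |dl t l a|
        ≤ K * Real.log x * (A0 * x / 2 ^ t) * (C * 2 ^ t / ((t : ℝ) + 1) ^ (p + 1)) := by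
      have := hC t
      gcongr
    refine h1.trans ?_
    have ht1' : (0 : ℝ) < (t : ℝ) + 1 := by positivity
    have h2 : K * Real.log x * (A0 * x / 2 ^ t) * (C * 2 ^ t / ((t : ℝ) + 1) ^ (p + 1))
        = K * A0 * C * x * Real.log x / ((t : ℝ) + 1) ^ (p + 1) := by
      field_simp
    rw [h2, ← mul_div_assoc, div_le_div_iff₀ (by positivity) hlp]
    have h3 : Real.log x ^ (p + 1) ≤ 24 ^ (p + 1) * ((t : ℝ) + 1) ^ (p + 1) := by
      rw [← mul_pow]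
      exact pow_le_pow_left₀ hlogpos.le hlogx2 _
    calc K * A0 * C * x * Real.log x * Real.log x ^ p = K * A0 * C * x * Real.log x ^ (p + 1) := by
          ring
      _ ≤ K * A0 * C * x * (24 ^ (p + 1) * ((t : ℝ) + 1) ^ (p + 1)) := by gcongr
      _ = _ := by ring
  -- the three errors
  have hxh : (2 : ℝ) ^ t ≤ x / 2 := by
    rw [le_div_iff₀ (by norm_num), ← pow_succ]
    exact hxt3
  have e1 := hF (t + 1) x hxt3
  have e2 := hF t (x / 2) hxh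
  have e3 := hF t (3 * x / 2) (by linarith)
  have hE2 : E * 2 ^ t ≤ E * 2 ^ (t + 1) := by
    have : (2 : ℝ) ^ t ≤ 2 ^ (t + 1) := pow_le_pow_right₀ (by norm_num) (by omega)
    gcongr
  have hxl : 0 ≤ x / Real.log x ^ p := by positivity
  rw [abs_le] at e1 e2 e3 hmain2 ⊢
  have e : (K * A0 * C * 24 ^ (p + 1) + 3 * (2 * 12 ^ p * (p.factorial : ℝ))) * x / Real.log x ^ p
      = K * A0 * C * 24 ^ (p + 1) * (x / Real.log x ^ p)
        + 3 * (2 * 12 ^ p * (p.factorial : ℝ) * (x / Real.log x ^ p)) := by ring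
  rw [e]
  constructor <;> linarith [e1.1, e1.2, e2.1, e2.2, e3.1, e3.2, hmain2.1, hmain2.2]

end Pool.Agent.WR3.H33
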