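import Pool.Agent.WR3.StmtsC
import Pool.Agent.WR2.Done
import Pool.Agent.Helper33_WR2.FN2

/-!
WR3: the two rows that are proved theorems of WR2.
-/

namespace Pool.Agent.WR3.H33

open Pool.Agent.WIR Pool.Agent.WR2 Pool.Agent.WR3

theorem pdd : PddStmt := Pool.Agent.WR2.H33.pdd done_pre done_flo

theorem alx : AlxStmt := Pool.Agent.WR2.H33.cor_allX done_cor

end Pool.Agent.WR3.H33
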