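import Pool.Agent.WR3.StmtsA

/-!
WR3, row DIR.
-/

namespace Pool.Agent.WR3.H33

open Pool.Agent.WIR Pool.Agent.WR2 Pool.Agent.WR3

theorem dir : DirStmt := by
  intro η hη
  have hl2 : 0 < Real.log 2 := Real.log_pos (by norm_num)
  have h32 : 3 * Real.log 2 ≤ 2 * Real.log 3 := by
    have h1 : Real.log ((2 : ℝ) ^ 3) ≤ Real.log ((3 : ℝ) ^ 2) :=
      Real.log_le_log (by norm_num) (by norm_num)
    rw [Real.log_pow, Real.log_pow] at h1
    push_cast at h1
    exact h1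
  obtain ⟨n, hn⟩ := exists_nat_gt (Real.log 2 / η)
  have hn0 : 0 < n := by
    have h1 : (0 : ℝ) < n := lt_trans (by positivity) hn
    exact_mod_cast h1
  obtain ⟨k, hk0, -, hk⟩ := Real.exists_nat_abs_mul_sub_round_le (Real.log 3 / Real.log 2) hn0
  set ξ := Real.log 3 / Real.log 2 with hξ
  have hξ1 : 3 / 2 ≤ ξ := by
    rw [hξ, le_div_iff₀ hl2]
    linarith
  have hk1 : (1 : ℝ) ≤ k := by exact_mod_cast hk0
  have hr := abs_sub_round ((k : ℝ) * ξ)
  rw [abs_le] at hr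
  have hrk : (k : ℝ) ≤ (round ((k : ℝ) * ξ) : ℝ) := by nlinarith [hr.1, hr.2]
  have hrk' : (k : ℤ) ≤ round ((k : ℝ) * ξ) := by exact_mod_cast hrk
  obtain ⟨r, hr'⟩ := Int.eq_ofNat_of_zero_le (le_trans (Int.natCast_nonneg k) hrk')
  rw [hr'] at hk hrk'
  have hkr : k ≤ r := by exact_mod_cast hrk'
  have he : (k : ℝ) * Real.log 3 - r * Real.log 2 = Real.log 2 * ((k : ℝ) * ξ - r) := by
    rw [hξ]
    field_simp
  refine ⟨k, r, hk0, hkr, ?_, ?_⟩
  · rw [abs_pos]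
    intro h0
    have h1 : Real.log ((3 : ℝ) ^ k) = Real.log ((2 : ℝ) ^ r) := by
      rw [Real.log_pow, Real.log_pow]
      linarith
    have h2 : (3 : ℝ) ^ k = 2 ^ r := Real.log_injOn_pos (by simp) (by simp) h1
    have h3 : 3 ^ k = 2 ^ r := by exact_mod_cast h2
    have h4 : Odd (3 ^ k) := Odd.pow (by decide)
    have h5 : Even (2 ^ r) := Nat.even_pow.2 ⟨by decide, by omega⟩
    rw [h3] at h4
    exact (Nat.not_odd_iff_even.2 h5) h4
  · rw [he, abs_mul, abs_of_pos hl2]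
    have h1 : |(k : ℝ) * ξ - r| ≤ 1 / ((n : ℝ) + 1) := by exact_mod_cast hk
    calc Real.log 2 * |(k : ℝ) * ξ - r| ≤ Real.log 2 * (1 / ((n : ℝ) + 1)) := by gcongr
      _ = Real.log 2 / ((n : ℝ) + 1) := by ring
      _ ≤ η := by
          rw [div_le_iff₀ (by positivity)]
          rw [div_lt_iff₀ hη] at hn
          nlinarith

end Pool.Agent.WR3.H33
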