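import Pool.Agent.WR3.StmtsC

/-!
WR3: final theorem, part 1: the limit of s_n(a)/sbar_n from the limit of FR a x / x.
-/

namespace Pool.Agent.WR3.H33

open Pool.Agent.WIR Pool.Agent.WR2 Pool.Agent.WR3
open scoped BigOperators ENNReal Topology
open Filter

theorem tendsto_two_pow : Tendsto (fun n : ℕ => (2 : ℝ) ^ n) atTop atTop :=
  tendsto_pow_atTop_atTop_of_one_lt (by norm_num)

theorem diff_lim (a : ℕ) (ρ : ℝ) (h : Tendsto (fun x : ℝ => FR a x / x) atTop (𝓝 ρ)) :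
    Tendsto (fun n : ℕ => (FR a (2 ^ (n + 1)) - FR a (2 ^ n)) / 2 ^ (n + 1)) atTop (𝓝 (ρ / 2)) := by
  have h1 : Tendsto (fun n : ℕ => FR a (2 ^ n) / 2 ^ n) atTop (𝓝 ρ) := h.comp tendsto_two_pow
  have h2 : Tendsto (fun n : ℕ => FR a (2 ^ (n + 1)) / 2 ^ (n + 1)) atTop (𝓝 ρ) :=
    h1.comp (tendsto_add_atTop_nat 1)
  have h3 := h2.sub (h1.div_const 2)
  have e : ρ - ρ / 2 = ρ / 2 := by ring
  rw [e] at h3
  refine h3.congr fun n => ?_
  have : (2 : ℝ) ^ n ≠ 0 := by positivity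
  rw [pow_succ]
  field_simp

theorem sigma_pos (SLB : SlbStmt) (σ : ℝ)
    (h : Tendsto (fun n : ℕ => (∑' l, en n l) / 2 ^ n) atTop (𝓝 σ)) : 0 < σ := by
  obtain ⟨n0, hn0⟩ := SLB
  have h1 : (1 / 4 : ℝ) ≤ σ := by
    refine ge_of_tendsto h ?_
    filter_upwards [eventually_ge_atTop n0] with n hn
    rw [le_div_iff₀ (by positivity)]
    have := hn0 n hn
    linarith
  linarith

theorem ratio_lim (SBR : SbrStmt) (TYB : TybStmt) (RSN : RsnStmt) (a : ℕ) (ha : 0 < a) (ρ σ : ℝ)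
    (hσ0 : 0 < σ) (hσ : Tendsto (fun n : ℕ => (∑' l, en n l) / 2 ^ n) atTop (𝓝 σ))
    (hρ0 : 0 ≤ ρ) (hρ : Tendsto (fun x : ℝ => FR a x / x) atTop (𝓝 ρ)) :
    Tendsto (fun n : ℕ => sN n a / sbar n) atTop (𝓝 (ENNReal.ofReal (ρ / (3 * σ)))) := by
  rw [← tendsto_add_atTop_iff_nat 1]
  obtain ⟨C, hC⟩ := TYB
  have hS : ∀ n : ℕ, 0 < ∑' l, en (n + 1) l := by
    intro n
    refine lt_of_lt_of_le ?_ (hC (n + 1) (by omega)).2.1
    positivity
  have h1 : Tendsto (fun n : ℕ => ENNReal.ofReal ((FR a (2 ^ (n + 1)) - FR a (2 ^ n))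
      / ∑' l, en (n + 1) l)) atTop (𝓝 (ENNReal.ofReal ((ρ / 2) / σ))) := by
    refine (ENNReal.continuous_ofReal.tendsto _).comp ?_
    have h2 := (diff_lim a ρ hρ).div (hσ.comp (tendsto_add_atTop_nat 1)) hσ0.ne'
    refine h2.congr fun n => ?_
    have h3 : (2 : ℝ) ^ (n + 1) ≠ 0 := by positivity
    have h4 := (hS n).ne'
    have h5 : ((FR a (2 ^ (n + 1)) - FR a (2 ^ n)) / 2 ^ (n + 1))
        / ((∑' l, en (n + 1) l) / 2 ^ (n + 1))
        = (FR a (2 ^ (n + 1)) - FR a (2 ^ n)) / ∑' l, en (n + 1) l := by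
      field_simp
    exact h5
  have h2 : Tendsto (fun n : ℕ => ENNReal.ofReal (∑' l, en (n + 1) l) / sbar (n + 1)) atTop
      (𝓝 (2 / 3)) := SBR.2.comp (tendsto_add_atTop_nat 1)
  have hne : (2 / 3 : ℝ≥0∞) ≠ ⊤ := ENNReal.div_ne_top (by norm_num) (by norm_num)
  have h3 := ENNReal.Tendsto.mul h1 (Or.inr hne) h2 (Or.inr ENNReal.ofReal_ne_top)
  have e1 : ENNReal.ofReal ((ρ / 2) / σ) * (2 / 3) = ENNReal.ofReal (ρ / (3 * σ)) := by
    have e2 : (2 / 3 : ℝ≥0∞) = ENNReal.ofReal (2 / 3) := by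
      rw [ENNReal.ofReal_div_of_pos (by norm_num)]
      norm_num
    rw [e2, ← ENNReal.ofReal_mul (by positivity)]
    congr 1
    field_simp
  rw [e1] at h3
  refine h3.congr fun n => ?_
  rw [(RSN a ha n).2]
  have hp := hS n
  rw [ENNReal.ofReal_div_of_pos hp]
  have hpe : ENNReal.ofReal (∑' l, en (n + 1) l) ≠ 0 := by
    rw [Ne, ENNReal.ofReal_eq_zero, not_le]
    exact hp
  rw [ENNReal.div_eq_inv_mul, ENNReal.div_eq_inv_mul, ENNReal.div_eq_inv_mul]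
  calc (ENNReal.ofReal (∑' l, en (n + 1) l))⁻¹ * ENNReal.ofReal (FR a (2 ^ (n + 1)) - FR a (2 ^ n))
        * ((sbar (n + 1))⁻¹ * ENNReal.ofReal (∑' l, en (n + 1) l))
      = ((ENNReal.ofReal (∑' l, en (n + 1) l))⁻¹ * ENNReal.ofReal (∑' l, en (n + 1) l))
        * ((sbar (n + 1))⁻¹ * ENNReal.ofReal (FR a (2 ^ (n + 1)) - FR a (2 ^ n))) := by ring
    _ = _ := by rw [ENNReal.inv_mul_cancel hpe ENNReal.ofReal_ne_top, one_mul]

/-- functional equation for the limits -/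
theorem rho_eq (RFU : RfuStmt) (a : ℕ) (ha : 0 < a) (ρ ρ1 ρ2 : ℝ)
    (h : Tendsto (fun x : ℝ => FR a x / x) atTop (𝓝 ρ))
    (h1 : Tendsto (fun x : ℝ => FR (2 * a) x / x) atTop (𝓝 ρ1))
    (h2 : 3 ∣ 2 * a - 1 → Tendsto (fun x : ℝ => FR ((2 * a - 1) / 3) x / x) atTop (𝓝 ρ2)) :
    2 * ρ = ρ1 + (if 3 ∣ 2 * a - 1 then 3 * ρ2 else 0) := by
  have t1 : Tendsto (fun x : ℝ => (if 1 ≤ x then (1 : ℝ) else 0) / x) atTop (𝓝 0) := by
    have h3 : Tendsto (fun x : ℝ => (1 : ℝ) / x) atTop (𝓝 0) := tendsto_const_nhds.div_atTop tendsto_id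
    refine h3.congr' ?_
    filter_upwards [eventually_ge_atTop (1 : ℝ)] with x hx
    rw [if_pos hx]
  have t2 : Tendsto (fun x : ℝ => FR (2 * a) (x / 2) / x) atTop (𝓝 (ρ1 / 2)) := by
    have h3 : Tendsto (fun x : ℝ => x / 2) atTop atTop := tendsto_id.atTop_div_const (by norm_num)
    have h4 := (h1.comp h3).div_const 2
    refine h4.congr' ?_
    filter_upwards [eventually_gt_atTop (0 : ℝ)] with x hx
    simp only [Function.comp]
    field_simp
  have t3 : Tendsto (fun x : ℝ => (if 3 ∣ 2 * a - 1 then FR ((2 * a - 1) / 3) (3 * x / 2) else 0) / x)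
      atTop (𝓝 (if 3 ∣ 2 * a - 1 then 3 * ρ2 / 2 else 0)) := by
    by_cases hd : 3 ∣ 2 * a - 1
    · simp only [if_pos hd]
      have h3 : Tendsto (fun x : ℝ => 3 * x / 2) atTop atTop :=
        (tendsto_id.const_mul_atTop (by norm_num)).atTop_div_const (by norm_num)
      have h4 := (((h2 hd).comp h3).const_mul 3).div_const 2
      refine h4.congr' ?_
      filter_upwards [eventually_gt_atTop (0 : ℝ)] with x hx
      simp only [Function.comp]
      field_simp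
    · simp only [if_neg hd, zero_div]
      exact tendsto_const_nhds
  have t4 := (t1.add t2).add t3
  have t5 : Tendsto (fun x : ℝ => FR a x / x) atTop
      (𝓝 (0 + ρ1 / 2 + (if 3 ∣ 2 * a - 1 then 3 * ρ2 / 2 else 0))) := by
    refine t4.congr' ?_
    filter_upwards [eventually_ge_atTop (0 : ℝ)] with x hx
    rw [RFU a ha x hx]
    ring
  have h6 := tendsto_nhds_unique h t5
  rw [h6]
  split_ifs <;> ring

end Pool.Agent.WR3.H33
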