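import Pool.Agent.Helper33_WR3.FN1

/-!
WR3: final theorem, part 2: densities.
-/

namespace Pool.Agent.WR3.H33

open Pool.Agent.WIR Pool.Agent.WR2 Pool.Agent.WR3
open scoped BigOperators ENNReal Topology
open Filter

theorem T_pos (b : ℕ) (hb : 0 < b) : 0 < T b := by
  unfold T
  split_ifs <;> omega

theorem iter_pos (j b : ℕ) (hb : 0 < b) : 0 < T^[j] b := by
  induction j generalizing b with
  | zero => exact hb
  | succ j ih => rw [Function.iterate_succ_apply]; exact ih _ (T_pos b hb)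

theorem ei_pt (a : ℕ) : EI (PT a) a := by
  intro b hb
  constructor
  · rintro ⟨j, hj⟩
    rcases j with _ | j
    · simp only [Function.iterate_zero, id] at hj
      omega
    · exact ⟨j, by rw [← Function.iterate_succ_apply]; exact hj⟩
  · rintro ⟨j, hj⟩
    exact ⟨j + 1, by rw [Function.iterate_succ_apply]; exact hj⟩

theorem NS_nonneg (S : Set ℕ) (x : ℝ) : 0 ≤ NS S x := Nat.cast_nonneg _

theorem NS_mono_set (S S' : Set ℕ) (h : ∀ b, 0 < b → b ∈ S → b ∈ S') (x : ℝ) : NS S x ≤ NS S' x := by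
  classical
  unfold NS
  refine Nat.cast_le.2 (Finset.card_le_card ?_)
  intro b hb
  rw [Finset.mem_filter] at hb ⊢
  exact ⟨hb.1, h b (Finset.mem_Icc.1 hb.1).1 hb.2⟩

theorem NS_nat (S : Set ℕ) (d : ℝ) (h : Tendsto (fun x : ℝ => NS S x / x) atTop (𝓝 d)) :
    Tendsto (fun X : ℕ => NS S (X : ℝ) / (X : ℝ)) atTop (𝓝 d) :=
  h.comp tendsto_natCast_atTop_atTop

/-- the limit is positive iff the density of the predecessor set is positive -/
theorem pos_iff (RLI : RliStmt) (DNS : DnsStmt) (PRH : PrhStmt) (a : ℕ) (ha : 0 < a) (ρ d : ℝ)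
    (hρ : Tendsto (fun x : ℝ => FR a x / x) atTop (𝓝 ρ)) (hd0 : 0 ≤ d)
    (hd : Tendsto (fun x : ℝ => NS (PT a) x / x) atTop (𝓝 d)) : 0 < ρ ↔ 0 < d := by
  constructor
  · intro h
    obtain ⟨K, hK, hKb⟩ := (RLI a ha).2
    by_contra hcon
    have hd' : d = 0 := le_antisymm (not_lt.1 hcon) hd0
    rw [hd'] at hd
    have haR : (0 : ℝ) < a := by exact_mod_cast ha
    have t1 : Tendsto (fun n : ℕ => (2 : ℝ) ^ (n + 1) * a) atTop atTop :=
      (tendsto_two_pow.comp (tendsto_add_atTop_nat 1)).atTop_mul_const haR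
    have t2 := ((hd.comp t1).const_mul (K * a))
    rw [mul_zero] at t2
    have t3 : ρ / 2 ≤ 0 := by
      refine le_of_tendsto_of_tendsto (diff_lim a ρ hρ) t2 ?_
      refine Eventually.of_forall fun n => ?_
      have h1 := hKb n
      have h2 : (0 : ℝ) < 2 ^ (n + 1) := by positivity
      simp only [Function.comp]
      rw [div_le_iff₀ h2]
      calc FR a (2 ^ (n + 1)) - FR a (2 ^ n) ≤ K * NS (PT a) (2 ^ (n + 1) * a) := h1
        _ = K * a * (NS (PT a) (2 ^ (n + 1) * a) / (2 ^ (n + 1) * a)) * 2 ^ (n + 1) := by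
            field_simp
    linarith
  · intro h
    obtain ⟨b, j, hb, hj, -, c, hc, n0, hDn⟩ := DNS a d ha h hd
    rw [← hj] at hρ
    exact PRH b j c n0 ρ hb hc hDn hρ

/-- lower bound for the limit of a dense element -/
theorem rho_lower (RSN : RsnStmt) (b : ℕ) (hb : 0 < b) (c : ℝ) (n0 : ℕ) (hD : Dn c n0 b) (ρ : ℝ)
    (hρ : Tendsto (fun x : ℝ => FR b x / x) atTop (𝓝 ρ)) : 2 * c ≤ ρ := by
  have h1 : c ≤ ρ / 2 := by
    refine ge_of_tendsto (diff_lim b ρ hρ) ?_
    filter_upwards [eventually_ge_atTop n0] with n hn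
    obtain ⟨L, hL⟩ := hD (n + 1) (by omega)
    rw [le_div_iff₀ (by positivity)]
    obtain ⟨h2, h3⟩ := RSN b hb n
    have h4 : ENNReal.ofReal (c * 2 ^ (n + 1)) ≤ sN (n + 1) b := by
      have h5 : ENNReal.ofReal (∑ l ∈ Finset.range L, (uT (Mz (n + 1) l) l b : ℝ)) ≤ sN (n + 1) b := by
        rw [ENNReal.ofReal_sum_of_nonneg fun l _ => Nat.cast_nonneg _]
        have h6 : ∑ l ∈ Finset.range L, ENNReal.ofReal (uT (Mz (n + 1) l) l b : ℝ)
            = ∑ l ∈ Finset.range L, (uT (Mz (n + 1) l) l b : ℝ≥0∞) :=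
          Finset.sum_congr rfl fun l _ => ENNReal.ofReal_natCast _
        rw [h6]
        exact ENNReal.sum_le_tsum _
      exact le_trans (ENNReal.ofReal_le_ofReal hL) h5
    rw [h3] at h4
    exact (ENNReal.ofReal_le_ofReal_iff (by linarith)).1 h4
  linarith

/-- the set of the integers whose orbit has no element `a ≤ y` with `P a` -/
theorem union_bd (DEN : DenStmt) (TAO : TaoStmt) (P : ℕ → Prop)
    (hP : ∀ a, 0 < a → ¬ P a → Tendsto (fun x : ℝ => NS (PT a) x / x) atTop (𝓝 0)) (p : ℕ) :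
    ∃ C : ℝ, ∀ y : ℕ, 2 ≤ y → ∃ d : ℝ, d ≤ C / Real.log y ^ p ∧
      Tendsto (fun x : ℝ => NS {b | ∀ j, ¬ (T^[j] b ≤ y ∧ P (T^[j] b))} x / x) atTop (𝓝 d) := by
  classical
  obtain ⟨C, hC0, hC⟩ := TAO p
  refine ⟨C, fun y hy => ?_⟩
  have hEI : EI {b | ∀ j, ¬ (T^[j] b ≤ y ∧ P (T^[j] b))} y := by
    intro b hb
    constructor
    · intro h j
      have := h (j + 1)
      rwa [Function.iterate_succ_apply] at this
    · intro h j
      rcases j with _ | j
      · simp only [Function.iterate_zero, id]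
        intro h1
        omega
      · rw [Function.iterate_succ_apply]
        exact h j
  obtain ⟨d, hd0, hd⟩ := DEN _ _ hEI
  refine ⟨d, ?_, hd⟩
  -- comparison with the set of the integers that stay above y
  set A := (Finset.Icc 1 y).filter (fun a => ¬ P a) with hA
  have hlim : Tendsto (fun x : ℝ => ∑ a ∈ A, NS (PT a) x / x) atTop (𝓝 (∑ a ∈ A, (0 : ℝ))) := by
    refine tendsto_finsetSum _ fun a ha => ?_
    rw [hA, Finset.mem_filter, Finset.mem_Icc] at ha
    exact hP a (by omega) ha.2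
  rw [Finset.sum_const_zero] at hlim
  have hlim2 := hlim.add_const (C / Real.log y ^ p)
  rw [zero_add] at hlim2
  refine le_of_tendsto_of_tendsto hd hlim2 ?_
  filter_upwards [eventually_ge_atTop (1 : ℝ)] with x hx
  have hx0 : 0 < x := by linarith
  have h1 : NS {b | ∀ j, ¬ (T^[j] b ≤ y ∧ P (T^[j] b))} x
      ≤ ∑ a ∈ A, NS (PT a) x + NS {b | ∀ j, y < T^[j] b} x := by
    have h2 : (Finset.Icc 1 ⌊x⌋₊).filter (fun b => b ∈ {b | ∀ j, ¬ (T^[j] b ≤ y ∧ P (T^[j] b))})
        ⊆ (A.biUnion fun a => (Finset.Icc 1 ⌊x⌋₊).filter (fun b => b ∈ PT a))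
          ∪ (Finset.Icc 1 ⌊x⌋₊).filter (fun b => b ∈ {b | ∀ j, y < T^[j] b}) := by
      intro b hb
      rw [Finset.mem_filter] at hb
      rw [Finset.mem_union]
      by_cases hall : ∀ j, y < T^[j] b
      · right
        rw [Finset.mem_filter]
        exact ⟨hb.1, hall⟩
      · left
        push Not at hall
        obtain ⟨j, hj⟩ := hall
        rw [Finset.mem_biUnion]
        refine ⟨T^[j] b, ?_, ?_⟩
        · rw [hA, Finset.mem_filter, Finset.mem_Icc]
          have hpos := iter_pos j b (by have := Finset.mem_Icc.1 hb.1; omega)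
          refine ⟨⟨hpos, hj⟩, ?_⟩
          intro hp
          exact hb.2 j ⟨hj, hp⟩
        · rw [Finset.mem_filter]
          exact ⟨hb.1, j, rfl⟩
    unfold NS
    rw [← Nat.cast_sum, ← Nat.cast_add]
    refine Nat.cast_le.2 ((Finset.card_le_card h2).trans ((Finset.card_union_le _ _).trans ?_))
    exact Nat.add_le_add_right Finset.card_biUnion_le _
  have h3 := hC y x hy hx
  rw [div_le_iff₀ hx0, add_mul, Finset.sum_mul]
  have h4 : ∑ a ∈ A, NS (PT a) x / x * x = ∑ a ∈ A, NS (PT a) x :=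
    Finset.sum_congr rfl fun a _ => by field_simp
  rw [h4]
  have h5 : C / Real.log y ^ p * x = C * x / Real.log y ^ p := by ring
  rw [h5]
  linarith

end Pool.Agent.WR3.H33
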