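import Pool.Agent.WR3.StmtsB

/-!
WR3, addition: the gap theorem. If an almost harmonic counting function has density zero then it is
smaller than `x / (log x)^p` for every `p`.
-/

namespace Pool.Agent.WR3.H33

open Pool.Agent.WIR Pool.Agent.WR2 Pool.Agent.WR3
open scoped BigOperators Topology
open Filter

theorem gap (MIN : MinStmt) (F : ℝ → ℝ) (hmono : ∀ x y, 0 < x → x ≤ y → F x ≤ F y)
    (h0 : ∀ x, 0 ≤ F x)
    (hH : ∀ p : ℕ, ∃ D x0 : ℝ, 0 ≤ D ∧ ∀ x, x0 ≤ x →
      |F x - F (x / 2) - F (3 * x / 2) / 3| ≤ D * x / Real.log x ^ p)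
    (hlim : Tendsto (fun x => F x / x) atTop (𝓝 0)) :
    ∀ p : ℕ, ∃ C x1 : ℝ, 0 ≤ C ∧ ∀ x, x1 ≤ x → F x ≤ C * x / Real.log x ^ p := by
  intro p
  obtain ⟨D, x0, hD, hx0⟩ := hH (p + 2)
  obtain ⟨κ, hκ, hM⟩ := MIN p D hD
  have hl2 : 0 < Real.log 2 := Real.log_pos (by norm_num)
  have hl2' : Real.log 2 < 1 := by
    have := Real.log_two_lt_d9
    linarith
  set f : ℝ → ℝ := fun v => F (Real.exp v) / Real.exp v with hf
  have hf0 : ∀ v, 0 ≤ f v := fun v => div_nonneg (h0 _) (Real.exp_pos v).le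
  have hflim : Tendsto f atTop (𝓝 0) := hlim.comp Real.tendsto_exp_atTop
  have hharm : ∀ v, Real.log (max x0 1) ≤ v →
      (f (v - Real.log 2) + f (v + Real.log (3 / 2))) / 2 - D / v ^ (p + 2) ≤ f v := by
    intro v hv
    have hx : x0 ≤ Real.exp v := by
      have h1 : max x0 1 ≤ Real.exp v := by
        have h2 := Real.exp_le_exp.2 hv
        rwa [Real.exp_log (lt_of_lt_of_le one_pos (le_max_right _ _))] at h2
      exact (le_max_left _ _).trans h1
    have h1 := hx0 (Real.exp v) hx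
    rw [Real.log_exp, abs_le] at h1
    have he := Real.exp_pos v
    have e1 : Real.exp (v - Real.log 2) = Real.exp v / 2 := by
      rw [Real.exp_sub, Real.exp_log (by norm_num)]
    have e2 : Real.exp (v + Real.log (3 / 2)) = 3 * Real.exp v / 2 := by
      rw [Real.exp_add, Real.exp_log (by norm_num)]
      ring
    rw [hf]
    simp only [e1, e2]
    have e3 : (F (Real.exp v / 2) / (Real.exp v / 2) + F (3 * Real.exp v / 2) / (3 * Real.exp v / 2)) / 2
        - D / v ^ (p + 2)
        = (F (Real.exp v / 2) + F (3 * Real.exp v / 2) / 3 - D * Real.exp v / v ^ (p + 2))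
          / Real.exp v := by
      field_simp
    rw [e3, div_le_div_iff_of_pos_right he]
    linarith [h1.1]
  refine ⟨2 * (κ + 1), Real.exp (max (Real.log (max x0 1)) 2), by positivity, fun x hx => ?_⟩
  have hxpos : 0 < x := lt_of_lt_of_le (Real.exp_pos _) hx
  have hlx : max (Real.log (max x0 1)) 2 ≤ Real.log x := by
    rw [Real.le_log_iff_exp_le hxpos]
    exact hx
  have hlx2 : 2 ≤ Real.log x := (le_max_right _ _).trans hlx
  set v0 := Real.log x + Real.log 2 with hv0
  have hv02 : 2 ≤ v0 := by linarith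
  -- there is a small value in the window
  obtain ⟨v, hv1, hv2, hv3⟩ : ∃ v, v0 - Real.log 2 ≤ v ∧ v < v0 ∧ f v ≤ (κ + 1) / v0 ^ (p + 1) := by
    by_contra hcon
    push Not at hcon
    have h1 := hM f v0 ((κ + 1) / v0 ^ (p + 1)) 0 hv02 (fun v _ => by rw [neg_zero]; exact hf0 v)
      (fun v hv => hharm v (by
        have := (le_max_left (Real.log (max x0 1)) 2).trans hlx
        linarith)) (fun v ha hb => (hcon v ha hb).le)
    have h2 : (κ + 1) / v0 ^ (p + 1) - κ / v0 ^ (p + 1) ≤ 0 := by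
      refine ge_of_tendsto hflim ?_
      filter_upwards [eventually_ge_atTop v0] with v hv
      exact h1 v hv
    have h3 : (κ + 1) / v0 ^ (p + 1) - κ / v0 ^ (p + 1) = 1 / v0 ^ (p + 1) := by ring
    rw [h3] at h2
    have h4 : 0 < 1 / v0 ^ (p + 1) := by positivity
    linarith
  have hxv : x ≤ Real.exp v := by
    have h1 : Real.log x ≤ v := by linarith
    have h2 := Real.exp_le_exp.2 h1
    rwa [Real.exp_log hxpos] at h2
  have hv2x : Real.exp v ≤ 2 * x := by
    have h1 := Real.exp_le_exp.2 hv2.le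
    rw [hv0, Real.exp_add, Real.exp_log hxpos, Real.exp_log (by norm_num)] at h1
    linarith
  have hlogp : 0 < Real.log x ^ p := by positivity
  have h5 : F (Real.exp v) ≤ (κ + 1) / v0 ^ (p + 1) * Real.exp v := by
    have := hv3
    rw [hf] at this
    simp only at this
    rwa [div_le_iff₀ (Real.exp_pos v)] at this
  have h6 : (κ + 1) / v0 ^ (p + 1) ≤ (κ + 1) / Real.log x ^ p := by
    have h7 : Real.log x ^ p ≤ v0 ^ (p + 1) := by
      calc Real.log x ^ p ≤ v0 ^ p := pow_le_pow_left₀ (by linarith) (by linarith) p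
        _ ≤ v0 ^ (p + 1) := pow_le_pow_right₀ (by linarith) (by omega)
    gcongr
  calc F x ≤ F (Real.exp v) := hmono x _ hxpos hxv
    _ ≤ (κ + 1) / v0 ^ (p + 1) * Real.exp v := h5
    _ ≤ (κ + 1) / Real.log x ^ p * (2 * x) := by gcongr
    _ = _ := by ring

end Pool.Agent.WR3.H33
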