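import Pool.Agent.Helper33_WR3.FN2
import Pool.Agent.Helper33_WR3.GAP

/-!
WR3, addition: the gap theorem for invariant sets and for trees.
-/

namespace Pool.Agent.WR3.H33

open Pool.Agent.WIR Pool.Agent.WR2 Pool.Agent.WR3
open scoped BigOperators ENNReal Topology
open Filter

theorem NS_mono (S : Set ℕ) (x y : ℝ) (hxy : x ≤ y) : NS S x ≤ NS S y := by
  classical
  unfold NS
  refine Nat.cast_le.2 (Finset.card_le_card ?_)
  intro b hb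
  rw [Finset.mem_filter, Finset.mem_Icc] at hb ⊢
  exact ⟨⟨hb.1.1, hb.1.2.trans (Nat.floor_le_floor hxy)⟩, hb.2⟩

/-- an invariant set of density zero has at most `C x / (log x)^p` elements up to `x` -/
theorem gap_set (MIN : MinStmt) (HSD : HsdStmt) (S : Set ℕ) (B : ℕ) (hS : EI S B)
    (hlim : Tendsto (fun x : ℝ => NS S x / x) atTop (𝓝 0)) :
    ∀ p : ℕ, ∃ C x1 : ℝ, 0 ≤ C ∧ ∀ x, x1 ≤ x → NS S x ≤ C * x / Real.log x ^ p := by
  refine gap MIN (NS S) (fun x y _ hxy => NS_mono S x y hxy) (NS_nonneg S) ?_ hlim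
  intro p
  obtain ⟨D, x0, hD, hx0, h⟩ := HSD p
  refine ⟨D, max x0 (((B : ℝ) + 1) ^ 2), hD, fun x hx => ?_⟩
  have h1 : x0 ≤ x := (le_max_left _ _).trans hx
  have h2 : ((B : ℝ) + 1) ^ 2 ≤ x := (le_max_right _ _).trans hx
  refine h S B hS x h1 ?_
  have hB : (1 : ℝ) ≤ (B : ℝ) + 1 := by
    have : (0 : ℝ) ≤ B := Nat.cast_nonneg B
    linarith
  calc ((B : ℝ) + 1) ^ 6 ≤ ((B : ℝ) + 1) ^ 10 := pow_le_pow_right₀ hB (by norm_num)
    _ = (((B : ℝ) + 1) ^ 2) ^ 5 := by ring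
    _ ≤ x ^ 5 := pow_le_pow_left₀ (by positivity) h2 5

/-- the counting function of a tree with limit zero -/
theorem gap_tree (MIN : MinStmt) (HAR : HarStmt) (RMU : RmuStmt) (RTY : RtyStmt) (a : ℕ)
    (ha : 0 < a) (hlim : Tendsto (fun x : ℝ => FR a x / x) atTop (𝓝 0)) :
    ∀ p : ℕ, ∃ C x1 : ℝ, 0 ≤ C ∧ ∀ x, x1 ≤ x → FR a x ≤ C * x / Real.log x ^ p := by
  obtain ⟨-, -, ⟨K, hK, hKb⟩, hmono⟩ := RMU a ha
  have ha1 : (1 : ℝ) ≤ a := by exact_mod_cast ha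
  have hmu0 : ∀ y c, 0 ≤ mu a y c := fun y c => Nat.cast_nonneg _
  refine gap MIN (FR a) (fun x y _ hxy => (hmono x y hxy).2)
    (fun x => Finset.sum_nonneg fun c _ => hmu0 x c) ?_ hlim
  intro p
  obtain ⟨D, x0, hD, hx0, hH⟩ := HAR p K a hK ha1
  refine ⟨D, x0, hD, fun x hx => ?_⟩
  refine hH (FR a) (mu a) 1 zero_le_one hmu0 hKb ?_ x hx ?_
  · intro t x htx
    rw [one_mul]
    exact RTY a ha t x (le_trans (by positivity) htx)
  · rw [one_pow]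
    exact one_le_pow₀ (by linarith)

theorem sbar_lower (SBR : SbrStmt) (SLB : SlbStmt) :
    ∃ n0 : ℕ, ∀ n, n0 ≤ n → ENNReal.ofReal (2 ^ n / 4) ≤ sbar n := by
  obtain ⟨n1, hn1⟩ := SLB
  have h23 : (2 / 3 : ℝ≥0∞) < 1 := by
    rw [ENNReal.div_lt_iff (Or.inl (by norm_num)) (Or.inl (by norm_num)), one_mul]
    norm_num
  obtain ⟨n2, hn2⟩ := eventually_atTop.1 (SBR.2.eventually (gt_mem_nhds h23))
  refine ⟨max (max n1 n2) 1, fun n hn => ?_⟩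
  have h1 : n1 ≤ n := by omega
  have h2 := hn2 n (by omega)
  obtain ⟨hs0, hst⟩ := SBR.1 n (by omega)
  rw [ENNReal.div_lt_iff (Or.inl hs0.ne') (Or.inl hst.ne), one_mul] at h2
  exact (ENNReal.ofReal_le_ofReal (hn1 n h1)).trans h2.le

theorem gap_s (MIN : MinStmt) (HAR : HarStmt) (RMU : RmuStmt) (RTY : RtyStmt) (RSN : RsnStmt)
    (SBR : SbrStmt) (SLB : SlbStmt) (a : ℕ) (ha : 0 < a)
    (hlim : Tendsto (fun x : ℝ => FR a x / x) atTop (𝓝 0)) :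
    ∀ p : ℕ, ∃ C : ℝ, ∃ n1 : ℕ, 0 ≤ C ∧ ∀ n, n1 ≤ n →
      sN n a ≤ ENNReal.ofReal (C / (n : ℝ) ^ p) * sbar n := by
  intro p
  obtain ⟨C, x1, hC, hCb⟩ := gap_tree MIN HAR RMU RTY a ha hlim p
  obtain ⟨n0, hn0⟩ := sbar_lower SBR SLB
  have hl2 : 0 < Real.log 2 := Real.log_pos (by norm_num)
  obtain ⟨n2, hn2⟩ := eventually_atTop.1 (tendsto_two_pow.eventually_ge_atTop x1)
  refine ⟨4 * C / Real.log 2 ^ p, max (max n0 n2) 1, by positivity, fun n hn => ?_⟩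
  have hn1 : 1 ≤ n := by omega
  have h1 := hCb (2 ^ n) (hn2 n (by omega))
  have h2 := hn0 n (by omega)
  rw [Real.log_pow, mul_pow] at h1
  obtain ⟨m, rfl⟩ : ∃ m, n = m + 1 := ⟨n - 1, by omega⟩
  obtain ⟨h3, h4⟩ := RSN a ha m
  rw [h4]
  have h5 : (0 : ℝ) ≤ FR a (2 ^ m) := Finset.sum_nonneg fun c _ => Nat.cast_nonneg _
  have hnp : (0 : ℝ) < ((m + 1 : ℕ) : ℝ) ^ p := by positivity
  calc ENNReal.ofReal (FR a (2 ^ (m + 1)) - FR a (2 ^ m))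
      ≤ ENNReal.ofReal (4 * C / Real.log 2 ^ p / ((m + 1 : ℕ) : ℝ) ^ p * (2 ^ (m + 1) / 4)) := by
        refine ENNReal.ofReal_le_ofReal ?_
        refine (sub_le_self _ h5).trans (h1.trans (le_of_eq ?_))
        field_simp
    _ = ENNReal.ofReal (4 * C / Real.log 2 ^ p / ((m + 1 : ℕ) : ℝ) ^ p)
        * ENNReal.ofReal (2 ^ (m + 1) / 4) := ENNReal.ofReal_mul (by positivity)
    _ ≤ _ := mul_le_mul_right h2 _

end Pool.Agent.WR3.H33
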