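import Pool.Agent.Helper33_WR3.FN3

/-!
WR3: final theorem, part 3: all statements together.
-/

namespace Pool.Agent.WR3.H33

open Pool.Agent.WIR Pool.Agent.WR2 Pool.Agent.WR3
open scoped BigOperators ENNReal Topology
open Filter

/-- the inequality of Q1 for one integer with the constant `c` -/
def Ineq (c : ℝ) (a : ℕ) : Prop := ∃ n0 : ℕ, ∀ n, n0 < n → ENNReal.ofReal c * sbar n < sN n a

theorem ineq_of_lim (SBR : SbrStmt) (a : ℕ) (w c : ℝ) (hw : 0 < w) (hcw : c < w)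
    (h : Tendsto (fun n : ℕ => sN n a / sbar n) atTop (𝓝 (ENNReal.ofReal w))) : Ineq c a := by
  have h1 : ENNReal.ofReal c < ENNReal.ofReal w := (ENNReal.ofReal_lt_ofReal_iff hw).2 hcw
  have h2 := h.eventually (lt_mem_nhds h1)
  obtain ⟨n1, hn1⟩ := eventually_atTop.1 h2
  refine ⟨n1 + 1, fun n hn => ?_⟩
  have h3 := hn1 n (by omega)
  obtain ⟨hs0, hst⟩ := SBR.1 n (by omega)
  exact (ENNReal.lt_div_iff_mul_lt (Or.inl hs0.ne') (Or.inl hst.ne)).1 h3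

theorem lim_of_ineq (SBR : SbrStmt) (a : ℕ) (w c : ℝ) (hw : 0 ≤ w)
    (h : Tendsto (fun n : ℕ => sN n a / sbar n) atTop (𝓝 (ENNReal.ofReal w))) (hI : Ineq c a) :
    c ≤ w := by
  obtain ⟨n0, hn0⟩ := hI
  have h1 : ENNReal.ofReal c ≤ ENNReal.ofReal w := by
    refine ge_of_tendsto h ?_
    filter_upwards [eventually_gt_atTop (n0 + 1)] with n hn
    obtain ⟨hs0, hst⟩ := SBR.1 n (by omega)
    have h2 := hn0 n (by omega)
    exact ((ENNReal.lt_div_iff_mul_lt (Or.inl hs0.ne') (Or.inl hst.ne)).2 h2).le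
  exact (ENNReal.ofReal_le_ofReal_iff hw).1 h1

open Classical in
theorem fin (SBR : SbrStmt) (TYB : TybStmt) (MCV : McvStmt) (SLB : SlbStmt) (RHO : RhoStmt)
    (RSN : RsnStmt) (RFU : RfuStmt) (RLI : RliStmt) (DEN : DenStmt) (DNS : DnsStmt) (PRH : PrhStmt)
    (ALX : AlxStmt) (TAO : TaoStmt) (MIN : MinStmt) (HAR : HarStmt) (RMU : RmuStmt)
    (RTY : RtyStmt) :
    ∃ w : ℕ → ℝ,
      (∀ a, 0 < a → 0 ≤ w a ∧
        Tendsto (fun n : ℕ => sN n a / sbar n) atTop (𝓝 (ENNReal.ofReal (w a)))) ∧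
      (∀ a, 0 < a → 2 * w a = w (2 * a) + (if 3 ∣ 2 * a - 1 then 3 * w ((2 * a - 1) / 3) else 0)) ∧
      (∀ a, 0 < a → ∃ d : ℝ, Tendsto (fun x : ℝ => NS (PT a) x / x) atTop (𝓝 d) ∧
        (0 < w a ↔ 0 < d)) ∧
      (∀ a, 0 < a → w a = 0 → ∀ p : ℕ, ∃ C : ℝ, ∃ n1 : ℕ, ∀ n, n1 ≤ n →
        sN n a ≤ ENNReal.ofReal (C / (n : ℝ) ^ p) * sbar n) ∧
      (∀ ε : ℝ, 0 < ε → ∃ c : ℝ, 0 < c ∧ ∃ X0 : ℕ, ∀ X : ℕ, X0 ≤ X →
        (((Finset.Icc 1 X).filter (fun a => ¬ 3 ∣ a ∧ w a < c)).card : ℝ) ≤ ε * X) ∧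
      ((∃ c : ℝ, 0 < c ∧ ∀ a, 0 < a → ¬ 3 ∣ a → Ineq c a) ↔
        (∃ c : ℝ, 0 < c ∧ ∀ a, 0 < a → ¬ 3 ∣ a → c ≤ w a)) ∧
      (∀ p : ℕ, ∃ C : ℝ, ∀ y : ℕ, 2 ≤ y → ∃ d : ℝ, d ≤ C / Real.log y ^ p ∧
        Tendsto (fun x : ℝ => NS {b | ∀ j, ¬ (T^[j] b ≤ y ∧ 0 < w (T^[j] b))} x / x)
          atTop (𝓝 d)) := by
  obtain ⟨σ, -, hσ⟩ := id MCV
  have hσ0 := sigma_pos SLB σ hσ
  choose ρ hρ0 hρ using RHO
  set w : ℕ → ℝ := fun a => if h : 0 < a then ρ a h / (3 * σ) else 0 with hw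
  have hwa : ∀ a (h : 0 < a), w a = ρ a h / (3 * σ) := fun a h => by rw [hw]; exact dif_pos h
  have hlim : ∀ a, 0 < a → 0 ≤ w a ∧
      Tendsto (fun n : ℕ => sN n a / sbar n) atTop (𝓝 (ENNReal.ofReal (w a))) := by
    intro a ha
    rw [hwa a ha]
    refine ⟨by have := hρ0 a ha; positivity, ?_⟩
    exact ratio_lim SBR TYB RSN a ha (ρ a ha) σ hσ0 hσ (hρ0 a ha) (hρ a ha)
  have hpos : ∀ a (ha : 0 < a), 0 < w a ↔ 0 < ρ a ha := by
    intro a ha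
    rw [hwa a ha]
    constructor
    · intro h
      by_contra hcon
      have : ρ a ha = 0 := le_antisymm (not_lt.1 hcon) (hρ0 a ha)
      rw [this, zero_div] at h
      exact lt_irrefl _ h
    · intro h
      positivity
  have hdens : ∀ a, 0 < a → ∃ d : ℝ, Tendsto (fun x : ℝ => NS (PT a) x / x) atTop (𝓝 d) ∧
      0 ≤ d ∧ (0 < w a ↔ 0 < d) := by
    intro a ha
    obtain ⟨d, hd0, hd⟩ := DEN (PT a) a (ei_pt a)
    refine ⟨d, hd, hd0, ?_⟩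
    rw [hpos a ha]
    exact pos_iff RLI DNS PRH a ha (ρ a ha) d (hρ a ha) hd0 hd
  refine ⟨w, hlim, ?_, ?_, ?_, ?_, ?_, ?_⟩
  · intro a ha
    have h2a : 0 < 2 * a := by omega
    by_cases hd : 3 ∣ 2 * a - 1
    · have h3 : 0 < (2 * a - 1) / 3 := by omega
      have h := rho_eq RFU a ha (ρ a ha) (ρ (2 * a) h2a) (ρ ((2 * a - 1) / 3) h3) (hρ a ha)
        (hρ _ h2a) (fun _ => hρ _ h3)
      rw [if_pos hd] at h ⊢
      rw [hwa a ha, hwa _ h2a, hwa _ h3]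
      calc 2 * (ρ a ha / (3 * σ)) = (2 * ρ a ha) / (3 * σ) := by ring
        _ = _ := by rw [h]; ring
    · have h := rho_eq RFU a ha (ρ a ha) (ρ (2 * a) h2a) 0 (hρ a ha) (hρ _ h2a)
        (fun h' => absurd h' hd)
      rw [if_neg hd] at h ⊢
      rw [hwa a ha, hwa _ h2a]
      calc 2 * (ρ a ha / (3 * σ)) = (2 * ρ a ha) / (3 * σ) := by ring
        _ = _ := by rw [h]; ring
  · intro a ha
    obtain ⟨d, hd, -, hiff⟩ := hdens a ha
    exact ⟨d, hd, hiff⟩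
  · intro a ha hwz p
    have hρz : ρ a ha = 0 := by
      refine le_antisymm ?_ (hρ0 a ha)
      by_contra hcon
      have := (hpos a ha).2 (not_le.1 hcon)
      rw [hwz] at this
      exact lt_irrefl _ this
    have h := hρ a ha
    rw [hρz] at h
    obtain ⟨C, n1, -, hC⟩ := gap_s MIN HAR RMU RTY RSN SBR SLB a ha h p
    exact ⟨C, n1, hC⟩
  · intro ε hε
    obtain ⟨c, hc, n0, X0, h⟩ := ALX ε hε
    refine ⟨2 * c / (3 * σ), by positivity, X0, fun X hX => le_trans ?_ (h X hX)⟩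
    refine Nat.cast_le.2 (Finset.card_le_card ?_)
    intro a ha
    rw [Finset.mem_filter] at ha ⊢
    refine ⟨ha.1, ha.2.1, ?_⟩
    intro hD
    have ha0 : 0 < a := (Finset.mem_Icc.1 ha.1).1
    have h1 := rho_lower RSN a ha0 c n0 hD (ρ a ha0) (hρ a ha0)
    have h2 := ha.2.2
    rw [hwa a ha0, div_lt_div_iff_of_pos_right (by positivity)] at h2
    linarith
  · constructor
    · rintro ⟨c, hc, h⟩
      exact ⟨c, hc, fun a ha h3 => lim_of_ineq SBR a (w a) c (hlim a ha).1 (hlim a ha).2 (h a ha h3)⟩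
    · rintro ⟨c, hc, h⟩
      refine ⟨c / 2, by positivity, fun a ha h3 => ?_⟩
      have h1 := h a ha h3
      exact ineq_of_lim SBR a (w a) (c / 2) (by linarith) (by linarith) (hlim a ha).2
  · intro p
    refine union_bd DEN TAO (fun a => 0 < w a) ?_ p
    intro a ha hna
    obtain ⟨d, hd, hd0, hiff⟩ := hdens a ha
    have : d = 0 := by
      refine le_antisymm ?_ hd0
      by_contra hcon
      exact hna (hiff.2 (not_le.1 hcon))
    rwa [this] at hd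

end Pool.Agent.WR3.H33
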