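import Pool.Agent.WR3.StmtsB

/-!
WR3, row RHO: the limit exists for every tree.
-/

namespace Pool.Agent.WR3.H33

open Pool.Agent.WIR Pool.Agent.WR2 Pool.Agent.WR3
open scoped BigOperators Topology
open Filter

theorem rho (HAR : HarStmt) (RMU : RmuStmt) (RTY : RtyStmt) (RLI : RliStmt) (CVG : CvgStmt) :
    RhoStmt := by
  intro a ha
  obtain ⟨-, -, ⟨K, hK, hKb⟩, hmono⟩ := RMU a ha
  have ha1 : (1 : ℝ) ≤ a := by exact_mod_cast ha
  obtain ⟨D, x0, hD, hx0, hH⟩ := HAR 2 K a hK ha1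
  have hmu0 : ∀ y c, 0 ≤ mu a y c := fun y c => Nat.cast_nonneg _
  refine CVG (FR a) (fun x y _ hxy => (hmono x y hxy).2) (fun x => Finset.sum_nonneg fun c _ => hmu0 x c)
    (RLI a ha).1 ⟨D, x0, fun x hx => ?_⟩
  refine hH (FR a) (mu a) 1 zero_le_one hmu0 hKb ?_ x hx ?_
  · intro t x htx
    rw [one_mul]
    exact RTY a ha t x (le_trans (by positivity) htx)
  · rw [one_pow]
    exact one_le_pow₀ (by linarith)

end Pool.Agent.WR3.H33
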