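import Pool.Agent.WR3.StmtsC

/-!
WR3, row SLB: lower bound for the mean.
-/

namespace Pool.Agent.WR3.H33

open Pool.Agent.WIR Pool.Agent.WR2 Pool.Agent.WR3
open scoped BigOperators

theorem sum_cnt (M l r : ℕ) : ∑ z : ZMod (3 ^ r), cnt M {l} r z = M.choose l := by
  classical
  have h1 : ∀ y : ZMod (3 ^ r), cnt M {l} r y =
      (((Finset.Icc 1 M).powerset.filter (fun O => O.card = l)).filter
        (fun O => FO r O = y)).card := by
    intro y
    rw [cnt, Finset.filter_filter]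
    congr 1
    ext O
    simp only [Finset.mem_filter, Set.mem_singleton_iff]
  simp only [h1]
  rw [← Finset.card_eq_sum_card_fiberwise (fun _ _ => Finset.mem_univ _)]
  have h2 : (Finset.Icc 1 M).powerset.filter (fun O => O.card = l)
      = Finset.powersetCard l (Finset.Icc 1 M) := by
    ext O
    simp only [Finset.mem_filter, Finset.mem_powerset, Finset.mem_powersetCard]
  rw [h2, Finset.card_powersetCard, Nat.card_Icc, Nat.add_sub_cancel]

theorem aux (GWD : GwdStmt) (BWD : BwdStmt) (WMS : WmsStmt) (n r K : ℕ) (hK : K = 7 * (n + 1))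
    (hn : 2 ≤ n) (hr : 3 * r ≤ n) :
    1 - Real.exp (-((r : ℝ) / 6)) - (Real.exp (-((r : ℝ) / 6)) + Real.exp (-((K : ℝ) / 800))) ≤
      ∑ l2 ∈ RS 0 n r K, ((M2 0 n l2).choose l2 : ℝ) / 2 ^ M2 0 n l2 := by
  have h3p : (0 : ℝ) < 3 ^ r := by positivity
  have h2K : (0 : ℝ) < 2 ^ K := by positivity
  have h1 : (1 - Real.exp (-((r : ℝ) / 6))) * 3 ^ r ≤
      3 ^ r * ∑ l2 ∈ RS 0 n r K, ((M2 0 n l2).choose l2 : ℝ) / 2 ^ M2 0 n l2
      + 3 ^ r / 2 ^ K * ((bd K r).card : ℝ) := by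
    refine ((WMS r).2.2).trans ?_
    have h0 : ∀ z : ZMod (3 ^ r), W r z ≤ ∑ l2 ∈ RS 0 n r K,
        (3 ^ r / 2 ^ M2 0 n l2 : ℝ) * (cnt (M2 0 n l2) {l2} r z : ℝ)
        + 3 ^ r / 2 ^ K * (bz K r z : ℝ) := by
      intro z
      rw [hK]
      exact GWD 0 n r z hn hr
    refine (Finset.sum_le_sum fun z _ => h0 z).trans (le_of_eq ?_)
    rw [Finset.sum_add_distrib, Finset.sum_comm, Finset.mul_sum]
    congr 1
    · refine Finset.sum_congr rfl fun l2 _ => ?_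
      rw [← Finset.mul_sum, ← Nat.cast_sum, sum_cnt]
      ring
    · rw [← Finset.mul_sum, ← Nat.cast_sum, BWD.2 r K]
  have hbd := BWD.1 r K (by omega) (by omega)
  have hbd2 : (3 : ℝ) ^ r / 2 ^ K * ((bd K r).card : ℝ)
      ≤ 3 ^ r * (Real.exp (-((r : ℝ) / 6)) + Real.exp (-((K : ℝ) / 800))) := by
    calc (3 : ℝ) ^ r / 2 ^ K * ((bd K r).card : ℝ)
        ≤ 3 ^ r / 2 ^ K * (2 ^ K * (Real.exp (-((r : ℝ) / 6)) + Real.exp (-((K : ℝ) / 800)))) := by
          gcongr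
      _ = _ := by field_simp
  have h2 : (1 - Real.exp (-((r : ℝ) / 6))
      - (Real.exp (-((r : ℝ) / 6)) + Real.exp (-((K : ℝ) / 800)))) * 3 ^ r
      ≤ (∑ l2 ∈ RS 0 n r K, ((M2 0 n l2).choose l2 : ℝ) / 2 ^ M2 0 n l2) * 3 ^ r := by
    linarith
  exact le_of_mul_le_mul_right h2 h3p

theorem slb (GWD : GwdStmt) (BWD : BwdStmt) (WMS : WmsStmt) (FLO : FloStmt) (TYB : TybStmt) :
    SlbStmt := by
  refine ⟨400, fun n hn => ?_⟩
  obtain ⟨C, hC⟩ := TYB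
  have hsum : Summable (en n) := (hC n (by omega)).1
  have h1 := aux GWD BWD WMS n 12 (7 * (n + 1)) rfl (by omega) (by omega)
  have hexp1 : Real.exp (-(((12 : ℕ) : ℝ) / 6)) ≤ 1 / 7 := by
    have e : -(((12 : ℕ) : ℝ) / 6) = -2 := by norm_num
    rw [e, Real.exp_neg]
    have h3 : (7 : ℝ) ≤ Real.exp 2 := by
      have h4 := Real.exp_one_gt_d9
      have h5 : Real.exp 2 = Real.exp 1 * Real.exp 1 := by rw [← Real.exp_add]; norm_num
      rw [h5]
      nlinarith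
    rw [inv_eq_one_div]
    exact one_div_le_one_div_of_le (by norm_num) h3
  have hexp2 : Real.exp (-(((7 * (n + 1) : ℕ) : ℝ) / 800)) ≤ 1 / 7 := by
    have hKr : (2 : ℝ) ≤ ((7 * (n + 1) : ℕ) : ℝ) / 800 := by
      rw [le_div_iff₀ (by norm_num)]
      have : 1600 ≤ 7 * (n + 1) := by omega
      have h6 : ((1600 : ℕ) : ℝ) ≤ ((7 * (n + 1) : ℕ) : ℝ) := by exact_mod_cast this
      push_cast at h6 ⊢
      linarith
    calc Real.exp (-(((7 * (n + 1) : ℕ) : ℝ) / 800)) ≤ Real.exp (-(((12 : ℕ) : ℝ) / 6)) := by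
          apply Real.exp_le_exp.2
          have e : (((12 : ℕ) : ℝ) / 6) = 2 := by norm_num
          rw [e]
          linarith
      _ ≤ 1 / 7 := hexp1
  have h2 : (1 / 2 : ℝ) ≤ ∑ l2 ∈ RS 0 n 12 (7 * (n + 1)),
      ((M2 0 n l2).choose l2 : ℝ) / 2 ^ M2 0 n l2 := by
    refine le_trans ?_ h1
    linarith
  have hM : ∀ l, M2 0 n l = Mz n l := by
    intro l
    unfold M2 Mz
    rw [zero_add, pow_zero, Nat.log_one_right, Nat.sub_zero]
  have h3 : (2 : ℝ) ^ n / 2 * ∑ l2 ∈ RS 0 n 12 (7 * (n + 1)),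
      ((M2 0 n l2).choose l2 : ℝ) / 2 ^ M2 0 n l2 ≤ ∑ l2 ∈ RS 0 n 12 (7 * (n + 1)), en n l2 := by
    rw [Finset.mul_sum]
    refine Finset.sum_le_sum fun l _ => ?_
    rw [hM l]
    unfold en
    have h4 := (FLO.2.1 n l).2
    have h5 : (2 : ℝ) ^ n * 3 ^ l ≤ 2 ^ (Mz n l) * 2 := by
      rw [← pow_succ]
      exact_mod_cast h4.le
    rw [← mul_div_assoc, div_le_div_iff₀ (by positivity) (by positivity)]
    have h6 : (0 : ℝ) ≤ ((Mz n l).choose l : ℝ) := Nat.cast_nonneg _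
    calc (2 : ℝ) ^ n / 2 * ((Mz n l).choose l : ℝ) * 3 ^ l
        = ((Mz n l).choose l : ℝ) * (2 ^ n * 3 ^ l) / 2 := by ring
      _ ≤ ((Mz n l).choose l : ℝ) * (2 ^ (Mz n l) * 2) / 2 := by gcongr
      _ = _ := by ring
  have h4 : ∑ l2 ∈ RS 0 n 12 (7 * (n + 1)), en n l2 ≤ ∑' l, en n l := by
    refine hsum.sum_le_tsum _ fun l _ => ?_
    unfold en
    positivity
  have h5 : (0 : ℝ) < 2 ^ n := by positivity
  nlinarith

end Pool.Agent.WR3.H33
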