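import Pool.Agent.WR3.StmtsA

/-!
WR3, row SMU: sums over a period.
-/

namespace Pool.Agent.WR3.H33

open Pool.Agent.WIR Pool.Agent.WR2 Pool.Agent.WR3
open scoped BigOperators

theorem smu (PRE : PreStmt) (AVA : AvaStmt) (LVM : LvmStmt) : SmuStmt := by
  have hPS : ∀ t l a, PS t l (fun _ => (1 : ℝ)) a = (uT t l a : ℝ) := by
    intro t l a
    unfold PS
    rw [PRE.2.2.1 t l a, Finset.sum_const, nsmul_eq_mul, mul_one]
  have hLv1 : Lv 0 (fun _ => (1 : ℝ)) := fun _ _ => rfl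
  have hL : ∀ t l, Lv l (fun a => (uT t l a : ℝ)) ∧ av l (fun a => (uT t l a : ℝ))
      = (t.choose l : ℝ) / 3 ^ l := by
    intro t l
    have h := LVM t l 0 (fun _ => (1 : ℝ)) hLv1
    rw [zero_add] at h
    have e : PS t l (fun _ => (1 : ℝ)) = fun a => (uT t l a : ℝ) := funext (hPS t l)
    rw [e] at h
    refine ⟨h.1, ?_⟩
    rw [h.2]
    have h1 : av 0 (fun _ => (1 : ℝ)) = 1 := by
      unfold av
      simp
    rw [h1, mul_one]
  have hsum : ∀ t l, ∑ a ∈ Finset.Icc 1 (3 ^ l), uT t l a = t.choose l := by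
    intro t l
    have h := (hL t l).2
    unfold av at h
    have h3 : (3 : ℝ) ^ l ≠ 0 := by positivity
    rw [div_left_inj' h3] at h
    have h' : (∑ m ∈ Finset.Icc 1 (3 ^ l), (uT t l m : ℝ)) = (t.choose l : ℝ) := h
    exact_mod_cast h'
  refine ⟨hsum, ?_, ?_, ?_⟩
  · intro t l a k ha
    have h1 : ∀ m, 0 < m → uT t l (m + 3 ^ l) = uT t l m := by
      intro m hm
      have h' : (uT t l (m + 3 ^ l) : ℝ) = (uT t l m : ℝ) := (hL t l).1 m hm
      exact_mod_cast h'
    induction k with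
    | zero => rw [zero_mul, add_zero]
    | succ k ih => rw [Nat.succ_mul, ← add_assoc, h1 _ (by omega), ih]
  · intro t l
    have h := (AVA.1 l (l + 1) (fun a => (uT t l a : ℝ)) (hL t l).1 (Nat.le_succ l)).2
    rw [(hL t l).2] at h
    unfold av at h
    have h3 : (3 : ℝ) ^ l ≠ 0 := by positivity
    rw [div_eq_div_iff (by positivity) h3, pow_succ] at h
    have h4 : (∑ a ∈ Finset.Icc 1 (3 ^ l * 3), (uT t l a : ℝ)) = 3 * (t.choose l : ℝ) := by
      have h5 : ((∑ a ∈ Finset.Icc 1 (3 ^ l * 3), (uT t l a : ℝ))) * 3 ^ l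
          = (3 * (t.choose l : ℝ)) * 3 ^ l := by
        rw [h]; ring
      exact mul_right_cancel₀ h3 h5
    rw [pow_succ]
    exact_mod_cast h4
  · intro t l a htl
    rw [PRE.2.2.1 t l a, PRE.2.2.2 t l a htl, Finset.card_empty]

end Pool.Agent.WR3.H33
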